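import Pool.Agent.Y78.PB.Final

set_option autoImplicit false

namespace Pool.Agent.Results.MP_9a3d30_co.GrowthRate

open Pool.Agent.Y78.PB

/-- For all `n ≥ s ≥ 2` the least number `m(n, s)` of members of a family of `n`-sets without
property `B(s)` equals `(1 + (s / n) (1 - s / n) ^ ((n - s) / s)) ^ n` up to a factor between `1 / 2`
and `10 ^ 6 s ^ 12`. -/
theorem result (n s : ℕ) (hs : 2 ≤ s) (hn : s ≤ n) :
    1 / 2 * (1 + (s : ℝ) / n * (1 - s / n) ^ (((n : ℝ) - s) / s)) ^ n ≤ (minEdges n s : ℝ) ∧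
    (minEdges n s : ℝ) ≤
      10 ^ 6 * s ^ 12 * (1 + (s : ℝ) / n * (1 - s / n) ^ (((n : ℝ) - s) / s)) ^ n :=
  minEdges_bounds hs hn

end Pool.Agent.Results.MP_9a3d30_co.GrowthRate
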